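import Pool.Agent.L7h95.CD.Stm

set_option autoImplicit false

/-! Project CD (helper95), part DI3: the distance between vertices with other Gray parts. -/

namespace Pool.Agent.L7h74.CD

open Finset Function Pool.Agent.L7h95.CD

theorem zm2 : ∀ a b : ZMod 2, a ≠ b → a = b + 1 := by decide

theorem zm2' : ∀ a b : ZMod 2, a ≠ b → a + 1 = b := by decide

theorem zm2'' : ∀ a b : ZMod 2, a ≠ b → a + 1 ≠ b + 1 := by decide

/-- two vectors which differ at most in `B` are equal or differ by the unit vector -/
theorem oneB {p : ℕ} (B : Fin p) (x y : Fin p → ZMod 2)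
    (h : ∀ i, x i ≠ (y + Pi.single B 1 : Fin p → ZMod 2) i → i = B) : x = y ∨ x = y + Pi.single B 1 := by
  have h' : ∀ i, i ≠ B → x i = y i := by
    intro i hi
    by_contra hc
    exact hi (h i (by simpa [Pi.add_apply, Pi.single_eq_of_ne hi] using hc))
  by_cases hB : x B = y B
  · left
    funext i
    by_cases hi : i = B
    · rw [hi, hB]
    · exact h' i hi
  · right
    funext i
    by_cases hi : i = B
    · subst hi
      simpa using zm2 _ _ hB
    · simpa [Pi.single_eq_of_ne hi] using h' i hi

theorem twoAB {p : ℕ} (A B : Fin p) (x y : Fin p → ZMod 2)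
    (h : ∀ i, (x + Pi.single A 1 : Fin p → ZMod 2) i ≠ (y + Pi.single B 1 : Fin p → ZMod 2) i →
      i ≠ B → i = A) :
    x = y ∨ x = y + Pi.single B 1 ∨ x + Pi.single A 1 = y ∨
      x + Pi.single A 1 = y + Pi.single B 1 := by
  have h' : ∀ i, i ≠ A → i ≠ B → x i = y i := by
    intro i hA hB
    by_contra hc
    exact hA (h i (by simpa [Pi.add_apply, Pi.single_eq_of_ne hA, Pi.single_eq_of_ne hB] using hc) hB)
  by_cases hAB : A = B
  · subst hAB
    by_cases hA : x A = y A
    · left
      funext i
      by_cases hi : i = A
      · rw [hi, hA]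
      · exact h' i hi hi
    · right; left
      funext i
      by_cases hi : i = A
      · subst hi
        simpa using zm2 _ _ hA
      · simpa [Pi.single_eq_of_ne hi] using h' i hi hi
  · by_cases hA : x A = y A
    · by_cases hB : x B = y B
      · left
        funext i
        by_cases hi : i = A
        · rw [hi, hA]
        · by_cases hj : i = B
          · rw [hj, hB]
          · exact h' i hi hj
      · right; left
        funext i
        by_cases hi : i = A
        · subst hi
          simpa [Pi.single_eq_of_ne hAB] using hA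
        · by_cases hj : i = B
          · subst hj
            simpa using zm2 _ _ hB
          · simpa [Pi.single_eq_of_ne hj] using h' i hi hj
    · by_cases hB : x B = y B
      · right; right; left
        funext i
        by_cases hi : i = A
        · subst hi
          simpa using zm2' _ _ hA
        · by_cases hj : i = B
          · subst hj
            simpa [Pi.single_eq_of_ne hi] using hB
          · simpa [Pi.single_eq_of_ne hi] using h' i hi hj
      · right; right; right
        funext i
        by_cases hi : i = A
        · subst hi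
          simpa [Pi.single_eq_of_ne hAB] using zm2' _ _ hA
        · by_cases hj : i = B
          · subst hj
            simpa [Pi.single_eq_of_ne hi] using zm2 _ _ hB
          · simpa [Pi.single_eq_of_ne hi, Pi.single_eq_of_ne hj] using h' i hi hj

theorem exI {p : ℕ} (c : ℕ → Fin p) (γ : ℕ → Fin p → ZMod 2) (hG : Gray p c γ)
    (v v' : ℕ) (m : ℕ) (hm0 : v = 0 → m = 4) (h1 : v + 1 < v') (h2 : v' < 2 ^ p) :
    ∃ i, γ v i ≠ γ v' i ∧ i ≠ c (v' - 1) ∧ (m < 4 → i ≠ c (v - 1)) := by
  by_contra hcon
  have hs' : γ v' = γ (v' - 1) + Pi.single (c (v' - 1)) 1 := by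
    have := hG.step (v' - 1) (by omega)
    rwa [Nat.sub_add_cancel (by omega)] at this
  have n1 := hG.inj v v' (by omega) h2
  have n2 := hG.inj v (v' - 1) (by omega) (by omega)
  by_cases hm : m < 4
  · have hv : 1 ≤ v := by
      rcases Nat.eq_zero_or_pos v with h | h
      · have := hm0 h; omega
      · exact h
    have hs : γ v = γ (v - 1) + Pi.single (c (v - 1)) 1 := by
      have := hG.step (v - 1) (by omega)
      rwa [Nat.sub_add_cancel hv] at this
    have n3 := hG.inj (v - 1) v' (by omega) h2
    have n4 := hG.inj (v - 1) (v' - 1) (by omega) (by omega)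
    have := twoAB (c (v - 1)) (c (v' - 1)) (γ (v - 1)) (γ (v' - 1)) (by
      intro i hi hB
      rw [← hs, ← hs'] at hi
      by_contra hA
      exact hcon ⟨i, hi, hB, fun _ => hA⟩)
    rw [← hs, ← hs'] at this
    rcases this with h | h | h | h
    · exact n4 h
    · exact n3 h
    · exact n2 h
    · exact n1 h
  · have := oneB (c (v' - 1)) (γ v) (γ (v' - 1)) (by
      intro i hi
      rw [← hs'] at hi
      by_contra hB
      exact hcon ⟨i, hi, hB, fun h => absurd h hm⟩)
    rw [← hs'] at this
    rcases this with h | h
    · exact n2 h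
    · exact n1 h

theorem s_DI3 : S_DI3 := by
  intro p r φ c γ hC hG v v' m m' hm hm' hm0 h1 h2
  obtain ⟨i, hi, hiB, hiA⟩ := exI c γ hG v v' m hm0 h1 h2
  let O : Finset (Fin p) := univ.filter fun j => γ v j ≠ γ v' j
  have hiO : i ∈ O := by simp [O, hi]
  let bad : Finset (Fin 4) :=
    (((O.erase i).biUnion fun j => univ.filter fun g => φ i g = φ j g) ∪
      (univ.filter fun g => φ i g = φ (c (v' - 1)) g)) ∪
      (univ.filter fun g => m < 4 ∧ φ i g = φ (c (v - 1)) g)
  have hbad : bad.card ≤ (O.card - 1) + 1 + 1 := by
    refine (card_union_le _ _).trans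
      (Nat.add_le_add ((card_union_le _ _).trans (Nat.add_le_add ?_ ?_)) ?_)
    · refine card_biUnion_le.trans ?_
      refine (sum_le_sum (fun j hj => hC i j (fun h => (mem_erase.mp hj).1 h.symm))).trans ?_
      simp [card_erase_of_mem hiO]
    · exact hC i _ hiB
    · by_cases h : m < 4
      · refine (card_le_card ?_).trans (hC i _ (hiA h))
        intro g hg
        simp only [mem_filter, mem_univ, true_and] at hg ⊢
        exact hg.2
      · have : (univ.filter fun g : Fin 4 => m < 4 ∧ φ i g = φ (c (v - 1)) g) = ∅ := by
          apply filter_false_of_mem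
          intro g _ hg
          exact h hg.1
        rw [this]
        simp
  have hO1 : 1 ≤ O.card := card_pos.mpr ⟨i, hiO⟩
  have hgood : 3 ≤ O.card + (badᶜ).card := by
    rw [card_compl, Fintype.card_fin]
    omega
  have hinj : Injective (fun g : Fin 4 => (Sum.inr (g, φ i g) : Fin p ⊕ (Fin 4 × Fin r))) := by
    intro g g' h
    simp only [Sum.inr.injEq, Prod.mk.injEq] at h
    exact h.1
  have key : (O.map ⟨Sum.inl, Sum.inl_injective⟩ ∪ (badᶜ).map ⟨_, hinj⟩) ⊆
      univ.filter fun x => yv φ c γ v m x ≠ yv φ c γ v' m' x := by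
    intro x hx
    simp only [mem_union, mem_map, Embedding.coeFn_mk] at hx
    simp only [mem_filter, mem_univ, true_and]
    rcases hx with ⟨j, hj, rfl⟩ | ⟨g, hg, rfl⟩
    · simpa [O, yv] using hj
    · have hg1 : ∀ j, j ≠ i → γ v j ≠ γ v' j → φ i g ≠ φ j g := by
        intro j hji hj he
        apply (mem_compl.mp hg)
        refine mem_union_left _ (mem_union_left _ (mem_biUnion.mpr ⟨j, ?_, ?_⟩))
        · simp [O, hji, hj]
        · simp [he]
      have hg2 : φ i g ≠ φ (c (v' - 1)) g := by
        intro he
        apply (mem_compl.mp hg)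
        refine mem_union_left _ (mem_union_right _ ?_)
        simp [he]
      have hg3 : m < 4 → φ i g ≠ φ (c (v - 1)) g := by
        intro h he
        apply (mem_compl.mp hg)
        refine mem_union_right _ ?_
        simp [he, h]
      have e1 : ¬ (m ≤ g.1 ∧ φ (c (v - 1)) g = φ i g) := by
        rintro ⟨ha, hb⟩
        exact hg3 (lt_of_le_of_lt ha g.2) hb.symm
      have e2 : ¬ (m' ≤ g.1 ∧ φ (c (v' - 1)) g = φ i g) := by
        rintro ⟨ha, hb⟩
        exact hg2 hb.symm
      simp only [yv, e1, e2, if_false, add_zero]
      rw [← add_sum_erase univ _ (mem_univ i), ← add_sum_erase univ _ (mem_univ i)]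
      have hs : ∑ j ∈ univ.erase i, γ v j * (if φ j g = φ i g then (1 : ZMod 2) else 0) =
          ∑ j ∈ univ.erase i, γ v' j * (if φ j g = φ i g then (1 : ZMod 2) else 0) := by
        apply sum_congr rfl
        intro j hj
        by_cases he : γ v j = γ v' j
        · rw [he]
        · have := hg1 j (mem_erase.mp hj).1 he
          rw [if_neg (fun h => this h.symm)]
          simp
      rw [hs]
      intro hcon
      have := add_right_cancel hcon
      simp at this
      exact hi this
  have hdis : Disjoint (O.map ⟨Sum.inl, Sum.inl_injective⟩ : Finset (Fin p ⊕ (Fin 4 × Fin r)))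
      ((badᶜ).map ⟨_, hinj⟩) := by
    rw [disjoint_left]
    intro x hx hx'
    simp only [mem_map, Embedding.coeFn_mk] at hx hx'
    obtain ⟨j, _, rfl⟩ := hx
    obtain ⟨g, _, h⟩ := hx'
    cases h
  have := card_le_card key
  rw [card_union_of_disjoint hdis, card_map, card_map] at this
  unfold hammingDist
  exact hgood.trans this

end Pool.Agent.L7h74.CD
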