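import Pool.Agent.L7h95.CD.Stm2
import Pool.Agent.L7h74.CD.Di3

set_option autoImplicit false

/-! Project CD (helper95), part DJ3: the distance between vertices with other Gray parts, general codes. -/

namespace Pool.Agent.L7h74.CD

open Finset Function Pool.Agent.L7h95.CD

theorem exIw {p : ℕ} (c : ℕ → Fin p) (γ : ℕ → Fin p → ZMod 2) (hG : Gray p c γ)
    (v v' : ℕ) (m w : ℕ) (hm0 : v = 0 → m = w) (h1 : v + 1 < v') (h2 : v' < 2 ^ p) :
    ∃ i, γ v i ≠ γ v' i ∧ i ≠ c (v' - 1) ∧ (m < w → i ≠ c (v - 1)) := by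
  by_cases hm : m < w
  · have hv : v = 0 → 3 = 4 := fun h => absurd (hm0 h) (by omega)
    obtain ⟨i, a, b, d⟩ := exI c γ hG v v' 3 hv h1 h2
    exact ⟨i, a, b, fun _ => d (by omega)⟩
  · obtain ⟨i, a, b, d⟩ := exI c γ hG v v' 4 (fun _ => rfl) h1 h2
    exact ⟨i, a, b, fun h => absurd h hm⟩

theorem arith (w l a b : ℕ) (hl : 1 ≤ l) (hw : 3 * l + 1 ≤ w) (ha : 1 ≤ a)
    (hb : b ≤ (a - 1) * l + l + l) : 3 ≤ a + (w - b) := by
  rcases Nat.lt_or_ge 2 a with h | h
  · omega
  · interval_cases a
    · simp at hb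
      omega
    · simp at hb
      omega

theorem s_DJ3 : S_DJ3 := by
  intro p r w l φ c γ hl hw hC hG v v' m m' hm hm' hm0 h1 h2
  obtain ⟨i, hi, hiB, hiA⟩ := exIw c γ hG v v' m w hm0 h1 h2
  let O : Finset (Fin p) := univ.filter fun j => γ v j ≠ γ v' j
  have hiO : i ∈ O := by simp [O, hi]
  let bad : Finset (Fin w) :=
    (((O.erase i).biUnion fun j => univ.filter fun g => φ i g = φ j g) ∪
      (univ.filter fun g => φ i g = φ (c (v' - 1)) g)) ∪
      (univ.filter fun g => m < w ∧ φ i g = φ (c (v - 1)) g)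
  have hbad : bad.card ≤ (O.card - 1) * l + l + l := by
    refine (card_union_le _ _).trans
      (Nat.add_le_add ((card_union_le _ _).trans (Nat.add_le_add ?_ ?_)) ?_)
    · refine card_biUnion_le.trans ?_
      refine (sum_le_sum (fun j hj => hC i j (fun h => (mem_erase.mp hj).1 h.symm))).trans ?_
      simp [card_erase_of_mem hiO]
    · exact hC i _ hiB
    · by_cases h : m < w
      · refine (card_le_card ?_).trans (hC i _ (hiA h))
        intro g hg
        simp only [mem_filter, mem_univ, true_and] at hg ⊢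
        exact hg.2
      · have : (univ.filter fun g : Fin w => m < w ∧ φ i g = φ (c (v - 1)) g) = ∅ := by
          apply filter_false_of_mem
          intro g _ hg
          exact h hg.1
        rw [this]
        simp
  have hO1 : 1 ≤ O.card := card_pos.mpr ⟨i, hiO⟩
  have hgood : 3 ≤ O.card + (badᶜ).card := by
    rw [card_compl, Fintype.card_fin]
    exact arith w l _ _ hl hw hO1 hbad
  have hinj : Injective (fun g : Fin w => (Sum.inr (g, φ i g) : Fin p ⊕ (Fin w × Fin r))) := by
    intro g g' h
    simp only [Sum.inr.injEq, Prod.mk.injEq] at h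
    exact h.1
  have key : (O.map ⟨Sum.inl, Sum.inl_injective⟩ ∪ (badᶜ).map ⟨_, hinj⟩) ⊆
      univ.filter fun x => yw φ c γ v m x ≠ yw φ c γ v' m' x := by
    intro x hx
    simp only [mem_union, mem_map, Embedding.coeFn_mk] at hx
    simp only [mem_filter, mem_univ, true_and]
    rcases hx with ⟨j, hj, rfl⟩ | ⟨g, hg, rfl⟩
    · simpa [O, yw] using hj
    · have hg1 : ∀ j, j ≠ i → γ v j ≠ γ v' j → φ i g ≠ φ j g := by
        intro j hji hj he
        apply (mem_compl.mp hg)
        refine mem_union_left _ (mem_union_left _ (mem_biUnion.mpr ⟨j, ?_, ?_⟩))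
        · simp [O, hji, hj]
        · simp [he]
      have hg2 : φ i g ≠ φ (c (v' - 1)) g := by
        intro he
        apply (mem_compl.mp hg)
        refine mem_union_left _ (mem_union_right _ ?_)
        simp [he]
      have hg3 : m < w → φ i g ≠ φ (c (v - 1)) g := by
        intro h he
        apply (mem_compl.mp hg)
        refine mem_union_right _ ?_
        simp [he, h]
      have e1 : ¬ (m ≤ g.1 ∧ φ (c (v - 1)) g = φ i g) := by
        rintro ⟨ha, hb⟩
        exact hg3 (lt_of_le_of_lt ha g.2) hb.symm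
      have e2 : ¬ (m' ≤ g.1 ∧ φ (c (v' - 1)) g = φ i g) := by
        rintro ⟨ha, hb⟩
        exact hg2 hb.symm
      simp only [yw, e1, e2, if_false, add_zero]
      rw [← add_sum_erase univ _ (mem_univ i), ← add_sum_erase univ _ (mem_univ i)]
      have hs : ∑ j ∈ univ.erase i, γ v j * (if φ j g = φ i g then (1 : ZMod 2) else 0) =
          ∑ j ∈ univ.erase i, γ v' j * (if φ j g = φ i g then (1 : ZMod 2) else 0) := by
        apply sum_congr rfl
        intro j hj
        by_cases he : γ v j = γ v' j
        · rw [he]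
        · have := hg1 j (mem_erase.mp hj).1 he
          rw [if_neg (fun h => this h.symm)]
          simp
      rw [hs]
      intro hcon
      have := add_right_cancel hcon
      simp at this
      exact hi this
  have hdis : Disjoint (O.map ⟨Sum.inl, Sum.inl_injective⟩ : Finset (Fin p ⊕ (Fin w × Fin r)))
      ((badᶜ).map ⟨_, hinj⟩) := by
    rw [disjoint_left]
    intro x hx hx'
    simp only [mem_map, Embedding.coeFn_mk] at hx hx'
    obtain ⟨j, _, rfl⟩ := hx
    obtain ⟨g, _, h⟩ := hx'
    cases h
  have := card_le_card key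
  rw [card_union_of_disjoint hdis, card_map, card_map] at this
  unfold hammingDist
  exact hgood.trans this

end Pool.Agent.L7h74.CD
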