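import Pool.Agent.L7h95.CD.Stm3

set_option autoImplicit false

/-! Project CD (helper95), part U2: a Gray path in the Hamming code. -/

namespace Pool.Agent.L7h74.CD

open Finset Function Pool.Agent.L7h95.CD

theorem s_U2 (hU1 : S_U1) (hG : S_GRA) : S_U2 := by
  intro t ht
  obtain ⟨h, hw, hd⟩ := hU1 t ht
  by_cases hp : 1 ≤ 2 ^ t - 1 - t
  · obtain ⟨c, γ, hg⟩ := hG _ hp
    choose a' b' c' hab hac hbc hh using hw
    refine ⟨fun q i => ∑ j, γ q j * h j i, fun q => a' (c q), fun q => b' (c q),
      fun q => c' (c q), ?_, ?_, ?_⟩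
    · intro q _
      exact ⟨hab _, hac _, hbc _⟩
    · intro q hq
      have e1 : ∀ i, ∑ j, γ (q + 1) j * h j i = ∑ j, γ q j * h j i + h (c q) i := by
        intro i
        rw [hg.step q hq]
        simp only [Pi.add_apply, add_mul, sum_add_distrib]
        congr 1
        rw [sum_eq_single (c q)]
        · simp
        · intro j _ hj
          simp [Pi.single_eq_of_ne hj]
        · intro hn
          exact absurd (mem_univ _) hn
      funext i
      rw [e1 i, hh (c q)]
      simp only [Pi.add_apply]
      ring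
    · intro q q' hqq hq'
      have hne : γ q - γ q' ≠ 0 := sub_ne_zero.mpr (hg.inj q q' hqq hq')
      have := hd _ hne
      rw [hammingDist_eq_hammingNorm] at this ⊢
      have e : (-(fun i => ∑ j, γ q j * h j i) + (fun i => ∑ j, γ q' j * h j i) :
          Fin (2 ^ t - 1) → ZMod 2) = -(fun i => ∑ j, (γ q - γ q') j * h j i) + 0 := by
        funext i
        simp only [Pi.sub_apply, Pi.zero_apply, Pi.add_apply, Pi.neg_apply, add_zero, sub_mul,
          sum_sub_distrib]
        ring
      rw [e]
      exact this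
  · have h0 : 2 ^ t - 1 - t = 0 := by omega
    have hpos : 0 < 2 ^ t - 1 := by
      have : 2 ^ 1 ≤ 2 ^ t := Nat.pow_le_pow_right (by norm_num) ht
      omega
    refine ⟨fun _ => 0, fun _ => ⟨0, hpos⟩, fun _ => ⟨0, hpos⟩, fun _ => ⟨0, hpos⟩, ?_, ?_, ?_⟩
    · intro q hq
      rw [h0] at hq
      simp at hq
    · intro q hq
      rw [h0] at hq
      simp at hq
    · intro q q' hqq hq
      rw [h0] at hq
      simp at hq
      omega

end Pool.Agent.L7h74.CD
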